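import Pool.Agent.H35P.Main
import Pool.Agent.H18C.CutFin
import Pool.Agent.H62P.TransP

/-! 2-factors with at most `k` cycles: the full statement, for all `k` and all graphs. -/

namespace Pool.Agent.Results.MP_12c032_co.AllOrders

open List Pool.Agent.TF82 Pool.Agent.H62P

universe u

/-- **Main theorem.** Let `k ≥ 0` and let `G` be a graph of order `n` such that
`|I| ≤ d(v) - 1` for every independent set `I` and every `v ∈ I`, and such that every independent
set with `k + 1` elements has degree sum at least `n`. Then `G` has a 2-factor with at most `k`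
cycles. -/
theorem result {V : Type u} [Fintype V] [DecidableEq V]
    (G : SimpleGraph V) [DecidableRel G.Adj] (k : ℕ)
    (hC : ∀ I : Finset V, G.IsIndepSet (I : Set V) → ∀ v ∈ I, I.card + 1 ≤ G.degree v)
    (hσ : ∀ I : Finset V, G.IsIndepSet (I : Set V) → I.card = k + 1 →
      Fintype.card V ≤ ∑ v ∈ I, G.degree v) :
    ∃ F : SimpleGraph V, F ≤ G ∧ (∀ v, (F.neighborSet v).ncard = 2) ∧
      Nat.card F.ConnectedComponent ≤ k := by
  have hd : ∀ v, dU G Finset.univ v = G.degree v := by
    intro v
    unfold dU
    rw [← SimpleGraph.card_neighborFinset_eq_degree, SimpleGraph.neighborFinset_eq_filter]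
  apply twoFactor_of_cov
  refine q1_of_pkg H18C.cutStepP H18C.sideStepP H35P.mainStepP transferP G k ?_ ?_
  · intro I hI v hv
    rw [hd]
    exact hC I hI v hv
  · intro I hI hIk
    have := hσ I hI hIk
    simpa only [hd] using this

end Pool.Agent.Results.MP_12c032_co.AllOrders
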